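import Pool.Agent.Helper17.SA.St2

/-! # Project SA, module PRD: direct products (helper3) -/

set_option autoImplicit false

open scoped Pointwise

namespace Pool.Agent.Helper3.SA

open Equiv Pool.Agent.Helper17.SA

variable {κ : Type} [Finite κ] {H : κ → Type} [∀ c, Group (H c)]

/-- a product of finitely many `q`-groups is a `q`-group -/
theorem isPGroup_pi (q : ℕ) (K : ∀ c, Subgroup (H c)) (hK : ∀ c, IsPGroup q (K c)) :
    IsPGroup q (Subgroup.pi Set.univ K) := by
  rintro ⟨z, hz⟩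
  have hz' : ∀ c, z c ∈ K c := fun c => (Subgroup.mem_pi _).1 hz c (Set.mem_univ c)
  have h1 : ∀ c, ∃ k : ℕ, z c ^ q ^ k = 1 := by
    intro c
    obtain ⟨k, hk⟩ := hK c ⟨z c, hz' c⟩
    refine ⟨k, ?_⟩
    have := congrArg Subtype.val hk
    simpa using this
  choose k hk using h1
  have := Fintype.ofFinite κ
  refine ⟨∑ c, k c, ?_⟩
  apply Subtype.ext
  simp only [SubmonoidClass.mk_pow, Subgroup.coe_one]
  funext c
  rw [Pi.pow_apply, Pi.one_apply]
  have hle : k c ≤ ∑ c, k c := Finset.single_le_sum (fun _ _ => Nat.zero_le _) (Finset.mem_univ c)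
  obtain ⟨e, he⟩ := Nat.exists_eq_add_of_le hle
  rw [he, pow_add, pow_mul, hk c, one_pow]

/-- the product of Sylow subgroups is a Sylow subgroup -/
theorem exists_piS (q : ℕ) (R : ∀ c, Sylow q (H c)) :
    ∃ P : Sylow q (∀ c, H c), (P : Subgroup (∀ c, H c)) =
      Subgroup.pi Set.univ (fun c => (R c : Subgroup (H c))) := by
  refine ⟨⟨Subgroup.pi Set.univ (fun c => (R c : Subgroup (H c))),
    isPGroup_pi q _ (fun c => (R c).isPGroup'), ?_⟩, rfl⟩
  intro Q hQ hle
  refine le_antisymm ?_ hle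
  intro z hz
  rw [Subgroup.mem_pi]
  intro c _
  have hmap : IsPGroup q (Q.map (Pi.evalMonoidHom H c)) := hQ.map _
  have hRle : (R c : Subgroup (H c)) ≤ Q.map (Pi.evalMonoidHom H c) := by
    intro y hy
    classical
    refine ⟨Pi.mulSingle c y, hle ?_, by simp⟩
    rw [Subgroup.mem_pi]
    intro d _
    by_cases hd : d = c
    · subst hd
      simpa using hy
    · rw [Pi.mulSingle_eq_of_ne hd]
      exact one_mem _
  have heq := (R c).is_maximal' hmap hRle
  have : z c ∈ Q.map (Pi.evalMonoidHom H c) := ⟨z, hz, rfl⟩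
  rw [heq] at this
  exact this

/-- every Sylow subgroup of a product is a product of Sylow subgroups -/
theorem sylow_eq_pi (q : ℕ) (P : Sylow q (∀ c, H c)) :
    ∃ R : ∀ c, Sylow q (H c), (P : Subgroup (∀ c, H c)) =
      Subgroup.pi Set.univ (fun c => (R c : Subgroup (H c))) := by
  have h1 : ∀ c, ∃ R : Sylow q (H c),
      (P : Subgroup (∀ c, H c)).map (Pi.evalMonoidHom H c) ≤ (R : Subgroup (H c)) :=
    fun c => (P.isPGroup'.map (Pi.evalMonoidHom H c)).exists_le_sylow
  choose R hR using h1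
  refine ⟨R, ?_⟩
  have hle : (P : Subgroup (∀ c, H c)) ≤ Subgroup.pi Set.univ (fun c => (R c : Subgroup (H c))) := by
    intro z hz
    rw [Subgroup.mem_pi]
    intro c _
    exact hR c ⟨z, hz, rfl⟩
  exact (P.is_maximal' (isPGroup_pi q _ (fun c => (R c).isPGroup')) hle).symm

/-- the intersection of the Sylow subgroups of a product -/
theorem mem_core_pi (q : ℕ) (z : ∀ c, H c) :
    z ∈ (⨅ P : Sylow q (∀ c, H c), (P : Subgroup (∀ c, H c))) ↔
      ∀ c, z c ∈ (⨅ R : Sylow q (H c), (R : Subgroup (H c))) := by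
  simp only [Subgroup.mem_iInf]
  constructor
  · intro h c R0
    classical
    have hne : ∀ d, Nonempty (Sylow q (H d)) := fun d => inferInstance
    let R : ∀ d, Sylow q (H d) := Function.update (fun d => (hne d).some) c R0
    obtain ⟨P, hP⟩ := exists_piS q R
    have := h P
    rw [hP, Subgroup.mem_pi] at this
    have h2 := this c (Set.mem_univ c)
    simpa [R] using h2
  · intro h P
    obtain ⟨R, hR⟩ := sylow_eq_pi q P
    rw [hR, Subgroup.mem_pi]
    intro c _
    exact h c (R c)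

theorem starAt_comp (q : ℕ) (h : StarAt (∀ c, H c) q) (c : κ) : StarAt (H c) q := by
  classical
  obtain ⟨P, Q, hPQ⟩ := h
  obtain ⟨A, hA⟩ := sylow_eq_pi q P
  obtain ⟨B, hB⟩ := sylow_eq_pi q Q
  refine ⟨A c, B c, ?_⟩
  rintro y ⟨hyA, hyB⟩
  have hm : ∀ R : ∀ c, Sylow q (H c), y ∈ (R c : Subgroup (H c)) →
      Pi.mulSingle c y ∈ Subgroup.pi Set.univ (fun c => (R c : Subgroup (H c))) := by
    intro R hy
    rw [Subgroup.mem_pi]
    intro d _
    by_cases hd : d = c
    · subst hd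
      simpa using hy
    · rw [Pi.mulSingle_eq_of_ne hd]
      exact one_mem _
  have h1 : Pi.mulSingle c y ∈ (P : Subgroup (∀ c, H c)) ⊓ (Q : Subgroup (∀ c, H c)) := by
    rw [hA, hB]
    exact ⟨hm A hyA, hm B hyB⟩
  have h2 := (mem_core_pi q _).1 (hPQ h1) c
  simpa using h2

theorem mem_conj {G : Type} [Group G] (x z : G) (K : Subgroup G) :
    z ∈ MulAut.conj x⁻¹ • K ↔ x * z * x⁻¹ ∈ K := by
  rw [Subgroup.mem_pointwise_smul_iff_inv_smul_mem]
  simp [← map_inv]

theorem pPRD : StPRD := by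
  intro κ _ H _ _ hQ ι _ p hp hinj hstar P
  have h1 : ∀ i, ∃ R : ∀ c, Sylow (p i) (H c), (P i : Subgroup (∀ c, H c)) =
      Subgroup.pi Set.univ (fun c => (R c : Subgroup (H c))) := fun i => sylow_eq_pi (p i) (P i)
  choose R hR using h1
  have h2 : ∀ c, ∃ x : H c, ∀ i,
      (R i c : Subgroup (H c)) ⊓ MulAut.conj x⁻¹ • (R i c : Subgroup (H c)) =
        ⨅ Q : Sylow (p i) (H c), (Q : Subgroup (H c)) :=
    fun c => hQ c ι p hp hinj (fun i => starAt_comp (p i) (hstar i) c) (fun i => R i c)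
  choose x hx using h2
  refine ⟨x, fun i => ?_⟩
  ext z
  rw [mem_core_pi]
  rw [Subgroup.mem_inf, mem_conj, hR i, Subgroup.mem_pi, Subgroup.mem_pi]
  constructor
  · rintro ⟨ha, hb⟩ c
    rw [← hx c i, Subgroup.mem_inf, mem_conj]
    exact ⟨ha c (Set.mem_univ c), hb c (Set.mem_univ c)⟩
  · intro h
    have h' : ∀ c, z c ∈ (R i c : Subgroup (H c)) ∧
        x c * z c * (x c)⁻¹ ∈ (R i c : Subgroup (H c)) := by
      intro c
      have := h c
      rw [← hx c i, Subgroup.mem_inf, mem_conj] at this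
      exact this
    exact ⟨fun c _ => (h' c).1, fun c _ => (h' c).2⟩

end Pool.Agent.Helper3.SA
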